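import Mathlib
import Pool.Agent.H892.KT.EN

/-!
# Kato surfaces: the lift of a coordinate change to the blow-up (helper980)
-/

set_option autoImplicit false

open Filter Topology Set
open scoped Manifold ContDiff

namespace Pool.Agent.H980.KT

open Pool.Agent.H892.KT

namespace LIFT

theorem bB_diff : Differentiable ℂ bB := by
  unfold bB
  fun_prop

theorem bB_zero (u : ℂ) : bB (0, u) = 0 := by
  unfold bB
  simp

/-- division by the first coordinate in the blow-up -/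
theorem divs (h1 : S_DIV) {V : Set (ℂ × ℂ)} (hV : IsOpen V) (h0 : (0 : ℂ × ℂ) ∈ V)
    {f : ℂ × ℂ → ℂ} (hf : DifferentiableOn ℂ f V) (hf0 : f 0 = 0) :
    ∃ h : ℂ × ℂ → ℂ, DifferentiableOn ℂ h {z | bB z ∈ V} ∧
      (∀ z, bB z ∈ V → f (bB z) = z.1 * h z) ∧ ∀ u : ℂ, h (0, u) = fderiv ℂ f 0 (1, u) := by
  set sw : ℂ × ℂ → ℂ × ℂ := fun p => (p.2, p.1) with hsw
  have hswd : Differentiable ℂ sw := by
    rw [hsw]
    fun_prop
  set V' : Set (ℂ × ℂ) := {p | bB (sw p) ∈ V} with hV'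
  have hV'o : IsOpen V' := hV.preimage (bB_diff.continuous.comp hswd.continuous)
  have hg : DifferentiableOn ℂ (fun p => f (bB (sw p))) V' :=
    hf.comp (bB_diff.comp hswd).differentiableOn (fun p hp => hp)
  obtain ⟨h, hd, he, hz⟩ := h1 V' (fun p => f (bB (sw p))) hV'o hg (by
    intro p _ hp2
    show f (bB (p.2, p.1)) = 0
    rw [hp2, bB_zero, hf0])
  have hsw2 : ∀ z : ℂ × ℂ, sw (sw z) = z := fun z => rfl
  refine ⟨fun z => h (sw z), ?_, ?_, ?_⟩
  · refine hd.comp hswd.differentiableOn ?_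
    intro z hz'
    show bB (sw (sw z)) ∈ V
    rw [hsw2]
    exact hz'
  · intro z hz'
    have h2 := he (sw z) (by
      show bB (sw (sw z)) ∈ V
      rw [hsw2]
      exact hz')
    simp only [hsw2] at h2
    exact h2
  · intro u
    have hmem : ((u, 0) : ℂ × ℂ) ∈ V' := by
      show bB (0, u) ∈ V
      rw [bB_zero]
      exact h0
    have h3 := hz (u, 0) hmem rfl
    show h (u, 0) = _
    rw [h3]
    have hgd : HasFDerivAt (fun p => f (bB (sw p)))
        (fderiv ℂ (fun p => f (bB (sw p))) (u, 0)) (u, 0) :=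
      ((hg _ hmem).differentiableAt (hV'o.mem_nhds hmem)).hasFDerivAt
    have hl : HasDerivAt (fun s : ℂ => ((u, s) : ℂ × ℂ)) (0, 1) 0 :=
      (hasDerivAt_const (0 : ℂ) u).prodMk (hasDerivAt_id (0 : ℂ))
    have e1 : HasDerivAt (fun s : ℂ => f (bB (sw (u, s))))
        (fderiv ℂ (fun p => f (bB (sw p))) (u, 0) (0, 1)) 0 :=
      HasFDerivAt.comp_hasDerivAt (l := fun p => f (bB (sw p))) (f := fun s : ℂ => ((u, s) : ℂ × ℂ))
        (0 : ℂ) hgd hl
    have hfd : HasFDerivAt f (fderiv ℂ f 0) (0 : ℂ × ℂ) :=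
      ((hf _ h0).differentiableAt (hV.mem_nhds h0)).hasFDerivAt
    have hl2 : HasDerivAt (fun s : ℂ => ((s, s * u) : ℂ × ℂ)) (1, u) 0 := by
      have h4 : HasDerivAt (fun s : ℂ => s * u) (1 * u) 0 := (hasDerivAt_id (0 : ℂ)).mul_const u
      rw [one_mul] at h4
      exact (hasDerivAt_id (0 : ℂ)).prodMk h4
    have h00 : ((0 : ℂ), (0 : ℂ) * u) = (0 : ℂ × ℂ) := by
      rw [zero_mul]
      rfl
    have e2 : HasDerivAt (fun s : ℂ => f (s, s * u)) (fderiv ℂ f 0 (1, u)) 0 := by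
      refine HasFDerivAt.comp_hasDerivAt (0 : ℂ) ?_ hl2
      rw [h00]
      exact hfd
    exact e1.unique e2

end LIFT

open LIFT in
/-- the lift of a coordinate change to the blow-up -/
theorem t_LIFT (h1 : S_DIV) : S_LIFT := by
  intro V ψ hV h0 hψ hψ0 hdir hA t
  obtain ⟨A, hA⟩ := hA
  set D : ℂ × ℂ →L[ℂ] ℂ × ℂ := fderiv ℂ ψ 0 with hD
  have hψ0d : HasFDerivAt ψ D 0 := ((hψ _ h0).differentiableAt (hV.mem_nhds h0)).hasFDerivAt
  obtain ⟨p, hp, hpe, hpz⟩ := divs h1 hV h0 (f := fun z => (ψ z).1) hψ.fst (by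
    show (ψ 0).1 = 0
    rw [hψ0]
    rfl)
  obtain ⟨q, hq, hqe, hqz⟩ := divs h1 hV h0 (f := fun z => (ψ z).2) hψ.snd (by
    show (ψ 0).2 = 0
    rw [hψ0]
    rfl)
  have hD1 : ∀ v, fderiv ℂ (fun z => (ψ z).1) 0 v = (D v).1 := by
    intro v
    rw [(HasFDerivAt.fst hψ0d).fderiv]
    rfl
  have hD2 : ∀ v, fderiv ℂ (fun z => (ψ z).2) 0 v = (D v).2 := by
    intro v
    rw [(HasFDerivAt.snd hψ0d).fderiv]
    rfl
  have hDu : ∀ u : ℂ, D (1, u) = D (1, 0) + u • D (0, 1) := by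
    intro u
    rw [← map_smul, ← map_add]
    congr 1
    simp
  have hinj : ∀ v, D v = 0 → v = 0 := by
    intro v hv
    rw [hA] at hv
    exact (map_eq_zero_iff A A.injective).1 hv
  set a : ℂ := (D (1, 0)).1 with ha
  set c : ℂ := (D (1, 0)).2 with hc
  set d : ℂ := (D (0, 1)).2 with hd
  have hp0 : ∀ u : ℂ, p (0, u) = a := by
    intro u
    rw [hpz, hD1, hDu, Prod.fst_add, Prod.smul_fst, hdir, smul_zero, add_zero]
  have hq0 : ∀ u : ℂ, q (0, u) = c + d * u := by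
    intro u
    rw [hqz, hD2, hDu, Prod.snd_add, Prod.smul_snd, smul_eq_mul, ← hc, ← hd, mul_comm]
  have hd0 : d ≠ 0 := by
    intro h
    have h2 : D (0, 1) = 0 := Prod.ext hdir h
    have h3 := hinj _ h2
    have h4 := congrArg Prod.snd h3
    exact one_ne_zero h4
  have ha0 : a ≠ 0 := by
    intro h
    have h2 : D (d, -c) = 0 := by
      have h3 : ((d, -c) : ℂ × ℂ) = d • ((1, 0) : ℂ × ℂ) + (-c) • ((0, 1) : ℂ × ℂ) := by
        simp
      rw [h3, map_add, map_smul, map_smul]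
      refine Prod.ext ?_ ?_
      · rw [Prod.fst_add, Prod.smul_fst, Prod.smul_fst, hdir, ← ha, h]
        simp
      · rw [Prod.snd_add, Prod.smul_snd, Prod.smul_snd, ← hc, ← hd, smul_eq_mul, smul_eq_mul]
        show d * c + -c * d = 0
        ring
    have h4 := congrArg Prod.fst (hinj _ h2)
    exact hd0 h4
  have hWo : IsOpen {z : ℂ × ℂ | bB z ∈ V} := hV.preimage bB_diff.continuous
  set O : Set (ℂ × ℂ) := {z | bB z ∈ V} ∩ p ⁻¹' {0}ᶜ with hO
  have hOo : IsOpen O := hp.continuousOn.isOpen_inter_preimage hWo isOpen_compl_singleton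
  have hmem : ∀ u : ℂ, ((0, u) : ℂ × ℂ) ∈ O := by
    intro u
    refine ⟨?_, ?_⟩
    · show bB (0, u) ∈ V
      rw [bB_zero]
      exact h0
    · show p (0, u) ≠ 0
      rw [hp0]
      exact ha0
  set Ψ : ℂ × ℂ → ℂ × ℂ := fun z => (z.1 * p z, q z / p z) with hΨ
  have hpO : DifferentiableOn ℂ p O := hp.mono inter_subset_left
  have hqO : DifferentiableOn ℂ q O := hq.mono inter_subset_left
  have hΨd : DifferentiableOn ℂ Ψ O := by
    refine DifferentiableOn.prodMk ?_ ?_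
    · exact differentiable_fst.differentiableOn.mul hpO
    · have hne : ∀ z ∈ O, p z ≠ 0 := fun z hz => hz.2
      exact (hqO.mul (hpO.inv hne)).congr fun z _ => div_eq_mul_inv _ _
  have hΨ0 : ∀ u : ℂ, Ψ (0, u) = (0, (c + d * u) / a) := by
    intro u
    show ((0 : ℂ) * p (0, u), q (0, u) / p (0, u)) = _
    rw [hp0, hq0, zero_mul]
  refine ⟨O, Ψ, hOo, hmem t, hΨd, ?_, ?_, ?_⟩
  · -- the derivative
    set B : ℂ × ℂ →L[ℂ] ℂ × ℂ := fderiv ℂ Ψ (0, t) with hB
    have hBd : HasFDerivAt Ψ B (0, t) :=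
      ((hΨd _ (hmem t)).differentiableAt (hOo.mem_nhds (hmem t))).hasFDerivAt
    have hpd : HasFDerivAt p (fderiv ℂ p (0, t)) (0, t) :=
      ((hpO _ (hmem t)).differentiableAt (hOo.mem_nhds (hmem t))).hasFDerivAt
    have hB1 : ∀ v, (B v).1 = a * v.1 := by
      intro v
      have e1 : HasFDerivAt (fun z : ℂ × ℂ => z.1 * p z) ((ContinuousLinearMap.fst ℂ ℂ ℂ).comp B)
          (0, t) := HasFDerivAt.fst hBd
      have e2 := (hasFDerivAt_fst (𝕜 := ℂ) (E := ℂ) (F := ℂ) (p := ((0, t) : ℂ × ℂ))).mul hpd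
      have e3 := congrArg (fun L : ℂ × ℂ →L[ℂ] ℂ => L v) (e1.unique e2)
      have e4 : (B v).1 = (0 : ℂ) * fderiv ℂ p (0, t) v + p (0, t) * v.1 := e3
      rw [e4, hp0]
      ring
    have hB2 : (B (0, 1)).2 = d / a := by
      have hl : HasDerivAt (fun s : ℂ => ((0, s) : ℂ × ℂ)) (0, 1) t :=
        (hasDerivAt_const t (0 : ℂ)).prodMk (hasDerivAt_id t)
      have e1 : HasDerivAt (fun s : ℂ => Ψ (0, s)) (B (0, 1)) t :=
        HasFDerivAt.comp_hasDerivAt t hBd hl
      have e2 : HasDerivAt (fun s : ℂ => ((0 : ℂ), (c + d * s) / a)) (0, d / a) t := by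
        refine (hasDerivAt_const t (0 : ℂ)).prodMk ?_
        have h5 : HasDerivAt (fun s : ℂ => (c + d * s) / a) (d * 1 / a) t :=
          (((hasDerivAt_id t).const_mul d).const_add c).div_const a
        rw [mul_one] at h5
        exact h5
      have e3 : (fun s : ℂ => Ψ (0, s)) = fun s : ℂ => ((0 : ℂ), (c + d * s) / a) :=
        funext hΨ0
      rw [e3] at e1
      rw [e1.unique e2]
    have hBi : Function.Injective (B : ℂ × ℂ →ₗ[ℂ] ℂ × ℂ) := by
      rw [← LinearMap.ker_eq_bot, LinearMap.ker_eq_bot']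
      intro v hv
      have hv' : B v = 0 := hv
      have h6 : v.1 = 0 := by
        have h7 := hB1 v
        rw [hv'] at h7
        have h8 : a * v.1 = 0 := h7.symm
        exact (mul_eq_zero.1 h8).resolve_left ha0
      have h7 : v = v.2 • ((0, 1) : ℂ × ℂ) := by
        refine Prod.ext ?_ ?_
        · rw [h6]
          simp
        · simp
      have h8 : v.2 * (d / a) = 0 := by
        rw [← hB2, ← smul_eq_mul, ← Prod.smul_snd, ← map_smul, ← h7, hv']
        rfl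
      have h9 : v.2 = 0 := (mul_eq_zero.1 h8).resolve_right (div_ne_zero hd0 ha0)
      rw [h7, h9, zero_smul]
    refine ⟨(LinearEquiv.ofInjectiveEndo (B : ℂ × ℂ →ₗ[ℂ] ℂ × ℂ) hBi).toContinuousLinearEquiv, ?_⟩
    exact ContinuousLinearMap.ext fun v => rfl
  · rintro z ⟨hz, hz2⟩
    refine ⟨hz, ?_, ?_⟩
    · have hz2' : p z ≠ 0 := hz2
      have e1 := hpe z hz
      have e2 := hqe z hz
      refine Prod.ext ?_ ?_
      · show z.1 * p z = (ψ (bB z)).1
        exact e1.symm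
      · show z.1 * p z * (q z / p z) = (ψ (bB z)).2
        have e3 : (ψ (bB z)).2 = z.1 * q z := e2
        rw [e3]
        field_simp
    · show z.1 * p z = 0 ↔ z.1 = 0
      exact ⟨fun h => (mul_eq_zero.1 h).resolve_right hz2, fun h => by rw [h, zero_mul]⟩
  · intro t' _
    rw [hΨ0]
    rfl

end Pool.Agent.H980.KT
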